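import Pool.Agent.LE.StmtsQF

set_option autoImplicit false

open scoped BigOperators Matrix

namespace Pool.Agent.LE.QF.H20

open Pool.Agent.LE.QF Matrix

section

variable {X : Type} [Fintype X] [DecidableEq X]

private theorem qf_dot (A : Matrix X X ℝ) (f : X → ℝ) : qf A f = f ⬝ᵥ (A *ᵥ f) := rfl

private theorem qf_one (f : X → ℝ) : qf (1 : Matrix X X ℝ) f = f ⬝ᵥ f := by
  rw [qf_dot, Matrix.one_mulVec]

private theorem qf_add (A B : Matrix X X ℝ) (f : X → ℝ) : qf (A + B) f = qf A f + qf B f := by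
  rw [qf_dot, qf_dot, qf_dot, Matrix.add_mulVec, dotProduct_add]

private theorem qf_smul (c : ℝ) (A : Matrix X X ℝ) (f : X → ℝ) : qf (c • A) f = c * qf A f := by
  rw [qf_dot, qf_dot, Matrix.smul_mulVec, dotProduct_smul, smul_eq_mul]

private theorem qf_conj (Y C : Matrix X X ℝ) (f : X → ℝ) :
    qf (Cᵀ * Y * C) f = qf Y (C *ᵥ f) := by
  rw [qf_dot, qf_dot, ← Matrix.mulVec_mulVec, ← Matrix.mulVec_mulVec, Matrix.dotProduct_mulVec,
    Matrix.vecMul_transpose]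

private theorem dot_pos {f : X → ℝ} (hf : f ≠ 0) : 0 < f ⬝ᵥ f := by
  have h0 : 0 ≤ f ⬝ᵥ f := Finset.sum_nonneg fun i _ => mul_self_nonneg _
  rcases h0.lt_or_eq with h | h
  · exact h
  · exact absurd (dotProduct_self_eq_zero.mp h.symm) hf

private theorem spec (Y : Matrix X X ℝ) (hs : ∀ a b, Y a b = Y b a) :
    ∃ (V : Matrix X X ℝ) (l : X → ℝ), Vᵀ * V = 1 ∧ V * Vᵀ = 1 ∧ Y = V * diagonal l * Vᵀ := by
  have hY : Y.IsHermitian := by
    ext a b
    simp only [Matrix.conjTranspose_apply, star_trivial]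
    exact hs b a
  refine ⟨(hY.eigenvectorUnitary : Matrix X X ℝ), hY.eigenvalues, ?_, ?_, ?_⟩
  · have h := Unitary.coe_star_mul_self hY.eigenvectorUnitary
    rw [← Matrix.conjTranspose_eq_transpose_of_trivial]
    exact h
  · have h := Unitary.coe_mul_star_self hY.eigenvectorUnitary
    rw [← Matrix.conjTranspose_eq_transpose_of_trivial]
    exact h
  · have h := hY.spectral_theorem
    rw [Unitary.conjStarAlgAut_apply] at h
    rw [← Matrix.conjTranspose_eq_transpose_of_trivial]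
    exact h

private theorem qf_spec {V : Matrix X X ℝ} {l : X → ℝ} (f : X → ℝ) :
    qf (V * diagonal l * Vᵀ) f = ∑ i, l i * (Vᵀ *ᵥ f) i ^ 2 := by
  have h := qf_conj (diagonal l) Vᵀ f
  rw [Matrix.transpose_transpose] at h
  rw [h, qf_dot, dotProduct]
  refine Finset.sum_congr rfl fun i _ => ?_
  rw [Matrix.mulVec_diagonal]
  ring

private theorem dot_spec {V : Matrix X X ℝ} (hV : V * Vᵀ = 1) (f : X → ℝ) :
    ∑ i, (Vᵀ *ᵥ f) i ^ 2 = f ⬝ᵥ f := by
  have h := qf_conj (1 : Matrix X X ℝ) Vᵀ f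
  rw [Matrix.transpose_transpose, Matrix.mul_one, hV, qf_one, qf_one] at h
  rw [h, dotProduct]
  exact Finset.sum_congr rfl fun i _ => sq _

private theorem qf_eig {V : Matrix X X ℝ} {l : X → ℝ} (hV : Vᵀ * V = 1) (i : X) :
    qf (V * diagonal l * Vᵀ) (V *ᵥ Pi.single i 1) = l i := by
  rw [qf_spec, Matrix.mulVec_mulVec, hV, Matrix.one_mulVec]
  rw [Finset.sum_eq_single i]
  · simp
  · intro j _ hj
    simp [Pi.single_eq_of_ne hj]
  · intro h
    exact absurd (Finset.mem_univ i) h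

private theorem dot_eig {V : Matrix X X ℝ} (hV : Vᵀ * V = 1) (i : X) :
    (V *ᵥ Pi.single i 1) ⬝ᵥ (V *ᵥ Pi.single i (1 : ℝ)) = 1 := by
  have h := qf_conj (1 : Matrix X X ℝ) V (Pi.single i 1)
  rw [Matrix.mul_one, hV, qf_one, qf_one] at h
  rw [← h]
  simp

private theorem trace_pow_spec {V : Matrix X X ℝ} {l : X → ℝ} (hV : Vᵀ * V = 1)
    (hV' : V * Vᵀ = 1) (p : ℕ) : trace ((V * diagonal l * Vᵀ) ^ p) = ∑ i, l i ^ p := by
  have h : (V * diagonal l * Vᵀ) ^ p = V * diagonal (fun i => l i ^ p) * Vᵀ := by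
    induction p with
    | zero =>
      simp only [pow_zero]
      rw [show (diagonal fun _ : X => (1 : ℝ)) = 1 from Matrix.diagonal_one, Matrix.mul_one, hV']
    | succ k ih =>
      rw [pow_succ, ih]
      calc V * diagonal (fun i => l i ^ k) * Vᵀ * (V * diagonal l * Vᵀ)
          = V * diagonal (fun i => l i ^ k) * (Vᵀ * V) * diagonal l * Vᵀ := by
            simp only [Matrix.mul_assoc]
        _ = V * (diagonal (fun i => l i ^ k) * diagonal l) * Vᵀ := by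
            rw [hV, Matrix.mul_one, Matrix.mul_assoc V]
        _ = _ := by
            rw [Matrix.diagonal_mul_diagonal]
            simp only [pow_succ]
  rw [h, Matrix.trace_mul_comm, ← Matrix.mul_assoc, hV, Matrix.one_mul, Matrix.trace_diagonal]

private theorem pow_swap (M N : Matrix X X ℝ) (k : ℕ) :
    (M * N) ^ (k + 1) = M * (N * M) ^ k * N := by
  induction k with
  | zero => simp
  | succ k ih =>
    rw [pow_succ, ih, pow_succ (N * M)]
    simp only [Matrix.mul_assoc]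

private theorem trace_swap (M N : Matrix X X ℝ) {p : ℕ} (hp : 1 ≤ p) :
    trace ((M * N) ^ p) = trace ((N * M) ^ p) := by
  obtain ⟨k, rfl⟩ : ∃ k, p = k + 1 := ⟨p - 1, by omega⟩
  rw [pow_swap, Matrix.mul_assoc, Matrix.trace_mul_comm, pow_succ, ← Matrix.mul_assoc]

/-- factorisation of a positive definite matrix -/
private theorem fac (P : Matrix X X ℝ) (hs : ∀ a b, P a b = P b a)
    (hp : ∀ f : X → ℝ, f ≠ 0 → 0 < qf P f) :
    ∃ C D : Matrix X X ℝ, P = Cᵀ * C ∧ C * D = 1 ∧ D * C = 1 := by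
  obtain ⟨V, l, hV, hV', hP⟩ := spec P hs
  have hl : ∀ i, 0 < l i := by
    intro i
    rw [← qf_eig (l := l) hV i, ← hP]
    apply hp
    intro h0
    have h1 := dot_eig hV i
    rw [h0, zero_dotProduct] at h1
    exact absurd h1 (by norm_num)
  have hsq : ∀ i, 0 < Real.sqrt (l i) := fun i => Real.sqrt_pos.mpr (hl i)
  refine ⟨diagonal (fun i => Real.sqrt (l i)) * Vᵀ, V * diagonal (fun i => (Real.sqrt (l i))⁻¹),
    ?_, ?_, ?_⟩
  · rw [Matrix.transpose_mul, Matrix.transpose_transpose, Matrix.diagonal_transpose]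
    calc P = V * diagonal l * Vᵀ := hP
      _ = V * (diagonal (fun i => Real.sqrt (l i)) * diagonal (fun i => Real.sqrt (l i))) * Vᵀ := by
        rw [Matrix.diagonal_mul_diagonal]
        simp only [Real.mul_self_sqrt (hl _).le]
      _ = _ := by simp only [Matrix.mul_assoc]
  · calc diagonal (fun i => Real.sqrt (l i)) * Vᵀ * (V * diagonal (fun i => (Real.sqrt (l i))⁻¹))
        = diagonal (fun i => Real.sqrt (l i)) * (Vᵀ * V) *
            diagonal (fun i => (Real.sqrt (l i))⁻¹) := by simp only [Matrix.mul_assoc]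
      _ = 1 := by
        rw [hV, Matrix.mul_one, Matrix.diagonal_mul_diagonal]
        simp only [mul_inv_cancel₀ (hsq _).ne', Matrix.diagonal_one]
  · calc V * diagonal (fun i => (Real.sqrt (l i))⁻¹) * (diagonal (fun i => Real.sqrt (l i)) * Vᵀ)
        = V * (diagonal (fun i => (Real.sqrt (l i))⁻¹) * diagonal (fun i => Real.sqrt (l i))) *
            Vᵀ := by simp only [Matrix.mul_assoc]
      _ = 1 := by
        rw [Matrix.diagonal_mul_diagonal]
        simp only [inv_mul_cancel₀ (hsq _).ne', Matrix.diagonal_one]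
        rw [Matrix.mul_one, hV']

private theorem inv_fac {P C D : Matrix X X ℝ} (hP : P = Cᵀ * C) (h1 : C * D = 1)
    (h2 : D * C = 1) :
    P⁻¹ = D * Dᵀ ∧ IsUnit P.det := by
  have h : P * (D * Dᵀ) = 1 := by
    rw [hP]
    calc Cᵀ * C * (D * Dᵀ) = Cᵀ * (C * D) * Dᵀ := by simp only [Matrix.mul_assoc]
      _ = (D * C)ᵀ := by rw [h1, Matrix.mul_one, Matrix.transpose_mul]
      _ = 1 := by rw [h2, Matrix.transpose_one]
  exact ⟨Matrix.inv_eq_right_inv h, Matrix.isUnit_det_of_right_inverse h⟩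

private theorem qf_inv {C D : Matrix X X ℝ} (f : X → ℝ) :
    qf (D * Dᵀ) f = (Dᵀ *ᵥ f) ⬝ᵥ (Dᵀ *ᵥ f) := by
  have h := qf_conj (1 : Matrix X X ℝ) Dᵀ f
  rw [Matrix.transpose_transpose, Matrix.mul_one, qf_one] at h
  exact h

/-- `Y = C Q Cᵀ` -/
private theorem ysym {Q C : Matrix X X ℝ} (hQ : ∀ a b, Q a b = Q b a) :
    ∀ a b, (C * Q * Cᵀ) a b = (C * Q * Cᵀ) b a := by
  have hQt : Qᵀ = Q := by ext a b; exact hQ b a
  have h : (C * Q * Cᵀ)ᵀ = C * Q * Cᵀ := by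
    rw [Matrix.transpose_mul, Matrix.transpose_mul, Matrix.transpose_transpose, hQt,
      Matrix.mul_assoc]
  intro a b
  exact congrFun (congrFun h.symm a) b

private theorem qfY (Q C : Matrix X X ℝ) (f : X → ℝ) :
    qf (C * Q * Cᵀ) f = qf Q (Cᵀ *ᵥ f) := by
  have h := qf_conj Q Cᵀ f
  rwa [Matrix.transpose_transpose] at h

private theorem lem1 {P Q : Matrix X X ℝ} (hPs : ∀ a b, P a b = P b a)
    (hPp : ∀ f : X → ℝ, f ≠ 0 → 0 < qf P f) (hQs : ∀ a b, Q a b = Q b a)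
    (hQ : ∀ f : X → ℝ, 0 ≤ qf Q f) {p : ℕ} (hp : 1 ≤ p) :
    0 ≤ trace ((P * Q) ^ p) ∧ (trace ((P * Q) ^ p) ≤ 1 → ∀ f, qf Q f ≤ qf P⁻¹ f) := by
  obtain ⟨C, D, hP, h1, h2⟩ := fac P hPs hPp
  obtain ⟨hi, -⟩ := inv_fac hP h1 h2
  obtain ⟨V, l, hV, hV', hY⟩ := spec _ (ysym (C := C) hQs)
  have htr : trace ((P * Q) ^ p) = ∑ i, l i ^ p := by
    rw [hP, Matrix.mul_assoc, trace_swap _ _ hp, hY, trace_pow_spec hV hV']
  have hl : ∀ i, 0 ≤ l i := by
    intro i
    rw [← qf_eig (l := l) hV i, ← hY, qfY]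
    exact hQ _
  refine ⟨?_, fun h => ?_⟩
  · rw [htr]
    exact Finset.sum_nonneg fun i _ => pow_nonneg (hl i) p
  · rw [htr] at h
    have hl1 : ∀ i, l i ≤ 1 := by
      intro i
      have h3 : l i ^ p ≤ 1 := le_trans (Finset.single_le_sum (f := fun i => l i ^ p)
        (fun j _ => pow_nonneg (hl j) p) (Finset.mem_univ i)) h
      exact (pow_le_one_iff_of_nonneg (hl i) (by omega)).mp h3
    intro f
    have h4 : Cᵀ *ᵥ (Dᵀ *ᵥ f) = f := by
      rw [Matrix.mulVec_mulVec, ← Matrix.transpose_mul, h2, Matrix.transpose_one,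
        Matrix.one_mulVec]
    have h5 : qf (C * Q * Cᵀ) (Dᵀ *ᵥ f) = qf Q f := by rw [qfY, h4]
    rw [← h5, hi, qf_inv (C := C), hY, qf_spec, ← dot_spec hV']
    refine Finset.sum_le_sum fun i _ => ?_
    have h6 : 0 ≤ (Vᵀ *ᵥ (Dᵀ *ᵥ f)) i ^ 2 := sq_nonneg _
    nlinarith [hl1 i]

private theorem lem2 {P Q : Matrix X X ℝ} (hPs : ∀ a b, P a b = P b a)
    (hPp : ∀ f : X → ℝ, 0 ≤ qf P f) (hQs : ∀ a b, Q a b = Q b a)
    (hQ : ∀ f : X → ℝ, f ≠ 0 → 0 < qf Q f) {p : ℕ} (hp : 1 ≤ p) {e : ℝ} (he : 0 < e)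
    (h : ∀ f, e * qf P f ≤ qf Q⁻¹ f) :
    trace ((P * Q) ^ p) ≤ Fintype.card X * (1 / e) ^ p := by
  obtain ⟨C, D, hC, h1, h2⟩ := fac Q hQs hQ
  obtain ⟨hi, -⟩ := inv_fac hC h1 h2
  obtain ⟨V, l, hV, hV', hY⟩ := spec _ (ysym (C := C) hPs)
  have htr : trace ((P * Q) ^ p) = ∑ i, l i ^ p := by
    rw [trace_swap _ _ hp, hC, Matrix.mul_assoc, trace_swap _ _ hp, hY, trace_pow_spec hV hV']
  have hl0 : ∀ i, 0 ≤ l i := by
    intro i
    rw [← qf_eig (l := l) hV i, ← hY, qfY]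
    exact hPp _
  have hl : ∀ i, l i ≤ 1 / e := by
    intro i
    have h3 : qf P (Cᵀ *ᵥ (V *ᵥ Pi.single i 1)) = l i := by
      rw [← qfY, hY, qf_eig hV i]
    have h4 := h (Cᵀ *ᵥ (V *ᵥ Pi.single i 1))
    rw [h3, hi, qf_inv (C := C)] at h4
    have h5 : Dᵀ *ᵥ (Cᵀ *ᵥ (V *ᵥ Pi.single i (1 : ℝ))) = V *ᵥ Pi.single i 1 := by
      rw [Matrix.mulVec_mulVec, ← Matrix.transpose_mul, h1, Matrix.transpose_one,
        Matrix.one_mulVec]
    rw [h5, dot_eig hV i] at h4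
    rw [le_div_iff₀ he]
    linarith
  rw [htr]
  calc ∑ i, l i ^ p ≤ ∑ _i : X, (1 / e) ^ p :=
        Finset.sum_le_sum fun i _ => pow_le_pow_left₀ (hl0 i) (hl i) p
    _ = _ := by rw [Finset.sum_const, Finset.card_univ, nsmul_eq_mul]

private theorem invpd {P : Matrix X X ℝ} (hPs : ∀ a b, P a b = P b a)
    (hPp : ∀ f : X → ℝ, f ≠ 0 → 0 < qf P f) :
    (∀ a b, P⁻¹ a b = P⁻¹ b a) ∧ (∀ f : X → ℝ, f ≠ 0 → 0 < qf P⁻¹ f) ∧ IsUnit P.det := by
  obtain ⟨C, D, hC, h1, h2⟩ := fac P hPs hPp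
  obtain ⟨hi, hu⟩ := inv_fac hC h1 h2
  refine ⟨?_, ?_, hu⟩
  · have h3 : (P⁻¹)ᵀ = P⁻¹ := by
      rw [hi, Matrix.transpose_mul, Matrix.transpose_transpose]
    intro a b
    exact congrFun (congrFun h3.symm a) b
  · intro f hf
    rw [hi, qf_inv (C := C)]
    apply dot_pos
    intro h0
    apply hf
    have h4 : Cᵀ *ᵥ (Dᵀ *ᵥ f) = f := by
      rw [Matrix.mulVec_mulVec, ← Matrix.transpose_mul, h2, Matrix.transpose_one,
        Matrix.one_mulVec]
    rw [← h4, h0, Matrix.mulVec_zero]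

private theorem qf_P0 (f : X → ℝ) : 0 ≤ qf (P0 X) f := by
  have h : qf (P0 X) f = (Fintype.card X : ℝ)⁻¹ * (∑ a, f a) ^ 2 := by
    rw [qf_dot, dotProduct, sq, Finset.sum_mul, Finset.mul_sum]
    refine Finset.sum_congr rfl fun a _ => ?_
    rw [Matrix.mulVec, dotProduct]
    simp only [P0]
    rw [← Finset.mul_sum]
    ring
  rw [h]
  positivity

end

theorem wab : WabStmt := by
  intro X _ _ x S e₀ e₁ τ ϖ p hxs hx hSs hS he0 he1 hτ hϖ hp
  obtain ⟨A, hA⟩ : ∃ A : Matrix X X ℝ, A = e₀ • (1 : Matrix X X ℝ) + τ • S := ⟨_, rfl⟩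
  obtain ⟨B, hB⟩ : ∃ B : Matrix X X ℝ, B = x + P0 X + ϖ • (1 : Matrix X X ℝ) := ⟨_, rfl⟩
  rw [← hA, ← hB]
  have h1s : ∀ a b : X, (1 : Matrix X X ℝ) a b = (1 : Matrix X X ℝ) b a := by
    intro a b
    rw [Matrix.one_apply, Matrix.one_apply]
    by_cases h : a = b
    · rw [if_pos h, if_pos h.symm]
    · rw [if_neg h, if_neg (Ne.symm h)]
  have hAs : ∀ a b, A a b = A b a := by
    intro a b
    rw [hA, Matrix.add_apply, Matrix.add_apply, Matrix.smul_apply, Matrix.smul_apply,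
      Matrix.smul_apply, Matrix.smul_apply, hSs a b, h1s a b]
  have hBs : ∀ a b, B a b = B b a := by
    intro a b
    rw [hB, Matrix.add_apply, Matrix.add_apply, Matrix.add_apply, Matrix.add_apply,
      Matrix.smul_apply, Matrix.smul_apply, hxs a b, h1s a b]
    rfl
  have hAp : ∀ f : X → ℝ, f ≠ 0 → 0 < qf A f := by
    intro f hf
    rw [hA, qf_add, qf_smul, qf_smul, qf_one]
    have := mul_nonneg hτ (hS f)
    have := mul_pos he0 (dot_pos hf)
    linarith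
  have hBp : ∀ f : X → ℝ, f ≠ 0 → 0 < qf B f := by
    intro f hf
    rw [hB, qf_add, qf_add, qf_smul, qf_one]
    have := hx f
    have := qf_P0 f
    have := mul_pos hϖ (dot_pos hf)
    linarith
  obtain ⟨hAis, hAip, hAu⟩ := invpd hAs hAp
  obtain ⟨hBis, hBip, hBu⟩ := invpd hBs hBp
  have hnn : ∀ {P : Matrix X X ℝ}, (∀ f : X → ℝ, f ≠ 0 → 0 < qf P f) → ∀ f, 0 ≤ qf P f := by
    intro P h f
    by_cases hf : f = 0
    · rw [hf, qf_dot, zero_dotProduct]
    · exact (h f hf).le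
  refine ⟨hAu, hBu, (lem1 hAis hAip hBis (hnn hBip) hp).1, fun h => ⟨fun f => ?_, fun f => ?_⟩,
    fun h => ?_⟩
  · have h1 := (lem1 hAis hAip hBis (hnn hBip) hp).2 h f
    rwa [Matrix.nonsing_inv_nonsing_inv A hAu] at h1
  · have h2 : trace ((B⁻¹ * A⁻¹) ^ p) ≤ 1 := by rw [trace_swap _ _ hp]; exact h
    have h1 := (lem1 hBis hBip hAis (hnn hAip) hp).2 h2 f
    rwa [Matrix.nonsing_inv_nonsing_inv B hBu] at h1
  · refine lem2 hAis (hnn hAip) hBis hBip hp he1 (fun f => ?_)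
    rw [Matrix.nonsing_inv_nonsing_inv B hBu]
    exact h f

end Pool.Agent.LE.QF.H20
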